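import Mathlib
import Pool.Agent.helper63.SAT.Defs
import Pool.Agent.helper63.SAT.PendDefs
import Pool.Agent.helper63.SAT.Main
import Pool.Agent.helper63.SAT.Pend2

/-!
# MP_582ec8_co: the case of a minimal edge with an endpoint of degree one

If the minimal edge of the edge-ordered graph `G` has an endpoint of degree one, then `sat_m(n, G)`
and `ssat_m(n, G)` have the same order of magnitude; both are bounded if the minimal edge is
isolated, and both are linear otherwise.
-/

namespace Pool.Agent.Results.MP_582ec8_co.EndpointOfDegreeOne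

open Pool.Agent.helper63.SAT Pool.Agent.helper63.SAT.EOGraph

theorem result : ∀ (V : Type) [Finite V] (G : EOGraph V), MinEdgePendant G →
    (∃ C : ℕ, ∀ n : ℕ, satm n G ≤ C * max (ssatm n G) 1) ∧
    (MinEdgeIsolated G → ∀ n : ℕ, ∃ H : EOGraph (Fin n), Saturated G H ∧
      H.size ≤ (3 * (Nat.card V - 2)).choose 2) ∧
    (¬ MinEdgeIsolated G → ∀ n : ℕ, n ≤ 2 * ssatm n G + 1 ∧ ∃ H : EOGraph (Fin n),
      Saturated G H ∧ H.size ≤ (2 * Nat.card V + 1) * (G.size + 1) * n) := by
  intro V _ G hG
  obtain ⟨a, b, hab, hleaf, hmin⟩ := hG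
  by_cases hiso : MinEdgeIsolated G
  · refine ⟨⟨(3 * (Nat.card V - 2)).choose 2, fun n => ?_⟩, fun h n => exists_saturated G h n,
      fun h => absurd hiso h⟩
    obtain ⟨H, h2, h3⟩ := exists_saturated G hiso n
    have h4 : H.size ∈ {k | ∃ H : EOGraph (Fin n), Saturated G H ∧ H.size = k} := ⟨H, h2, rfl⟩
    calc satm n G ≤ (3 * (Nat.card V - 2)).choose 2 := (Nat.sInf_le h4).trans h3
      _ = (3 * (Nat.card V - 2)).choose 2 * 1 := (mul_one _).symm
      _ ≤ _ := Nat.mul_le_mul_left _ (le_max_right _ _)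
  · have hdeg : ∃ c, c ≠ b ∧ G.graph.Adj a c := by
      by_contra hno
      push Not at hno
      exact hiso ⟨a, b, hab, fun c hc => by
        by_contra hcb
        exact hno c hcb hc, hleaf, hmin⟩
    refine ⟨⟨3 * (2 * Nat.card V + 1) * (G.size + 1),
      fun n => same_order_pendant G hab hmin hleaf hdeg n⟩, fun h => absurd h hiso,
      fun _ n => ⟨le_ssatm hab hmin (Or.inl hdeg) n, exists_saturated_pendant G hab hmin hleaf n⟩⟩

end Pool.Agent.Results.MP_582ec8_co.EndpointOfDegreeOne
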