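import Mathlib
import Pool.Agent.helper63.SAT.Defs
import Pool.Agent.helper63.SAT.Main
import Pool.Agent.helper63.SAT.Pend2
import Pool.Agent.helper77.Sat.Defs
import Pool.Agent.helper77.Sat.Main

/-!
# MP_582ec8_co: edge-ordered graphs which do not fold onto the contraction of the minimal edge

Let `ab` be the minimal edge of the edge-ordered graph `G`. If at every common neighbour `c` of `a`
and `b` the edges `ac` and `bc` are consecutive in the order and `G` has no fold onto `G/ab`, then
`sat_m(n, G) ≤ |V| n` and `sat_m`, `ssat_m` have the same order of magnitude. There is no fold if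
deleting `ab` lowers the chromatic number.
-/

namespace Pool.Agent.Results.MP_582ec8_co.NoFold

open Pool.Agent.helper63.SAT Pool.Agent.helper63.SAT.EOGraph Pool.Agent.helper77.Sat

theorem result : ∀ (V : Type) [Finite V] (G : EOGraph V) (a b : V), G.graph.Adj a b →
    (∀ e ∈ G.graph.edgeSet, G.label s(a, b) ≤ G.label e) → Consecutive G a b →
    ((∃ D, NoFold G a b D) ∨ Critical G a b) →
    (∀ n : ℕ, ∃ H : EOGraph (Fin n), Saturated G H ∧ H.size ≤ Nat.card V * n) ∧
    (∃ C : ℕ, ∀ n : ℕ, satm n G ≤ C * max (ssatm n G) 1) := by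
  intro V _ G a b hab hmin hc hf
  obtain ⟨D, hD⟩ : ∃ D, NoFold G a b D := by
    rcases hf with hf | hf
    · exact hf
    · exact no_fold_of_critical hf
  have hsat := fun n => exists_saturated_nofold hab hmin hc hD n
  refine ⟨hsat, ?_⟩
  by_cases hiso : MinEdgeIsolated G
  · refine ⟨(3 * (Nat.card V - 2)).choose 2, fun n => ?_⟩
    obtain ⟨H, h2, h3⟩ := exists_saturated G hiso n
    have h4 : H.size ∈ {k | ∃ H : EOGraph (Fin n), Saturated G H ∧ H.size = k} := ⟨H, h2, rfl⟩
    calc satm n G ≤ (3 * (Nat.card V - 2)).choose 2 := (Nat.sInf_le h4).trans h3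
      _ = (3 * (Nat.card V - 2)).choose 2 * 1 := (mul_one _).symm
      _ ≤ _ := Nat.mul_le_mul_left _ (le_max_right _ _)
  · have hdeg : (∃ c, c ≠ b ∧ G.graph.Adj a c) ∨ ∃ c, c ≠ a ∧ G.graph.Adj b c := by
      by_contra hno
      push Not at hno
      exact hiso ⟨a, b, hab, fun c hc' => by
        by_contra hcb
        exact hno.1 c hcb hc', fun c hc' => by
        by_contra hca
        exact hno.2 c hca hc', hmin⟩
    refine ⟨3 * Nat.card V, fun n => ?_⟩
    obtain ⟨H, h2, h3⟩ := hsat n
    have h4 : H.size ∈ {k | ∃ H : EOGraph (Fin n), Saturated G H ∧ H.size = k} := ⟨H, h2, rfl⟩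
    have h5 : satm n G ≤ Nat.card V * n := (Nat.sInf_le h4).trans h3
    have h6 := le_ssatm hab hmin hdeg n
    have h7 : n ≤ 3 * max (ssatm n G) 1 := by
      have := le_max_left (ssatm n G) 1
      have := le_max_right (ssatm n G) 1
      omega
    calc satm n G ≤ Nat.card V * n := h5
      _ ≤ Nat.card V * (3 * max (ssatm n G) 1) := Nat.mul_le_mul_left _ h7
      _ = 3 * Nat.card V * max (ssatm n G) 1 := by ring

end Pool.Agent.Results.MP_582ec8_co.NoFold
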